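import Pool.Agent.T9h46.NK.Ind5

/-!
# Project NK: the induction with four levels (numbers of helper40)
-/

set_option autoImplicit false

open Set
open scoped RealInnerProductSpace

namespace Pool.Agent.T9h46.NK

open Pool.Agent.T9h98.DC Pool.Agent.T9h98.NK Pool.Agent.T9h44.NK

/-- `PT 4` suffices in dimension at least `11` -/
def S_LLT : Prop := ∀ (n : ℕ), 10 ≤ n → ∀ (P : Set (E (n + 1)))
    (H : Subgroup (E (n + 1) ≃ₗᵢ[ℝ] E (n + 1))),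
  IsPolytope P → Pres H P → PT 4 H P → Reg P

theorem mk4 (hF : S_FACES) (hVF : S_VF) (hI : S_INV) (hO : S_IOTA) (hT : S_TR) (hM : S_MONO)
    (hL7 : S_LL7) (hL : S_LLT) (hS : S_STEP) (k : ℕ) : MK (k + 1) (4 * k + 9) := by
  induction k with
  | zero => exact m1 hF hM hL7
  | succ k ih =>
    have := mk_step hF hVF hI hO hT hM hS 4 10 (by norm_num) hL k (4 * k + 9) (by omega)
      (by omega) ih
    have e : 4 * (k + 1) + 9 = 4 * k + 9 + 4 := by ring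
    rw [e]
    exact this

/-- **the bound `d < 4 k + 6`** -/
theorem fin4 (hF : S_FACES) (hVF : S_VF) (hI : S_INV) (hO : S_IOTA) (hT : S_TR) (hM : S_MONO)
    (hL7 : S_LL7) (hL : S_LLT) (hS : S_STEP) (hTR : S_TRANS) (hONE : S_ONE) (h1 : S_FTS)
    (h2 : S_FTO) (h3 : S_FTC) (k d : ℕ) (hk : 2 ≤ k) (P : Set (E d)) (hP : IsKOrbit k P) :
    d < 4 * k + 6 := by
  by_contra hcon
  push Not at hcon
  obtain ⟨n, rfl⟩ : ∃ n, d = n + 1 := ⟨d - 1, by omega⟩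
  obtain ⟨j, rfl⟩ : ∃ j, k = j + 1 := ⟨k - 1, by omega⟩
  exact no_of_mk hTR hONE h1 h2 h3 (j + 1) (4 * j + 9)
    (mk4 hF hVF hI hO hT hM hL7 hL hS j) n (by omega) (j + 1) hk le_rfl P hP

/-- **the recursive bound, slope 4** -/
theorem rec4 (hF : S_FACES) (hVF : S_VF) (hI : S_INV) (hO : S_IOTA) (hT : S_TR) (hE : S_EXT)
    (hM : S_MONO) (hL7 : S_LL7) (hL : S_LLT) (hS : S_STEP) (hTR : S_TRANS) (hONE : S_ONE)
    (hS1 : S_FTS) (hS2 : S_FTO) (hS3 : S_FTC) (k D : ℕ) (hk : 1 ≤ k) (hD : k + 9 ≤ D)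
    (hno : ∀ j, 2 ≤ j → j ≤ k → ∀ d, D + j ≤ d + k → ∀ P : Set (E d), ¬ IsKOrbit j P) :
    ∀ m d, D + 4 * m ≤ d → ∀ j, 2 ≤ j → j ≤ k + m → ∀ P : Set (E d), ¬ IsKOrbit j P :=
  recG hF hVF hI hO hT hE hM hL7 hS hTR hONE hS1 hS2 hS3 4 10 (by norm_num) hL k D hk hD
    (by omega) hno

end Pool.Agent.T9h46.NK
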