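import Pool.Agent.T9h44.NK.SpecC

/-!
# Project NK, piece FTC: the cube is flag-transitive
-/

set_option autoImplicit false

open Set
open scoped RealInnerProductSpace

namespace Pool.Agent.T9h46.NK

open Pool.Agent.T9h98.DC Pool.Agent.T9h44.NK

variable {d : ℕ}

/-- the cube -/
def cube (c : E d) (r : ℝ) (b : OrthonormalBasis (Fin d) ℝ (E d)) : Set (E d) :=
  {x | ∀ i, |⟪x - c, b i⟫| ≤ r}

/-- the set of the points of the cube with prescribed coordinates in `J` -/
def cf (c : E d) (r : ℝ) (b : OrthonormalBasis (Fin d) ℝ (E d)) (J : Finset (Fin d)) (ε : Fin d → ℝ) :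
    Set (E d) := {x | x ∈ cube c r b ∧ ∀ j ∈ J, ⟪x - c, b j⟫ = ε j}

theorem inner_b (b : OrthonormalBasis (Fin d) ℝ (E d)) (i j : Fin d) :
    ⟪b i, b j⟫ = if i = j then (1 : ℝ) else 0 := by
  classical
  exact orthonormal_iff_ite.1 b.orthonormal i j

theorem expand (c : E d) (b : OrthonormalBasis (Fin d) ℝ (E d)) (x : E d) :
    x = c + ∑ j, ⟪x - c, b j⟫ • b j := by
  have h := b.sum_repr' (x - c)
  have h2 : ∑ j, ⟪x - c, b j⟫ • b j = x - c := by
    refine Eq.trans (Finset.sum_congr rfl fun j _ => ?_) h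
    rw [real_inner_comm]
  rw [h2, add_sub_cancel]

theorem lin_expand (c : E d) (b : OrthonormalBasis (Fin d) ℝ (E d)) (l : E d →L[ℝ] ℝ) (x : E d) :
    l x = l c + ∑ j, ⟪x - c, b j⟫ * l (b j) := by
  conv_lhs => rw [expand c b x]
  rw [map_add, map_sum]
  simp only [map_smul, smul_eq_mul]

/-- the point with prescribed coordinates -/
theorem exists_pt (c : E d) (b : OrthonormalBasis (Fin d) ℝ (E d)) (f : Fin d → ℝ) :
    ∃ x : E d, ∀ j, ⟪x - c, b j⟫ = f j := by
  refine ⟨c + ∑ j, f j • b j, fun j => ?_⟩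
  rw [add_sub_cancel_left, sum_inner]
  simp only [real_inner_smul_left, inner_b]
  simp

theorem face_form {c : E d} {r : ℝ} {b : OrthonormalBasis (Fin d) ℝ (E d)} (hr : 0 < r) {F : Set (E d)}
    (hF : IsFace (cube c r b) F) :
    ∃ (J : Finset (Fin d)) (ε : Fin d → ℝ), (∀ j, |ε j| = r) ∧ F = cf c r b J ε := by
  classical
  obtain ⟨l, hl⟩ := hF.2 hF.1
  refine ⟨Finset.univ.filter fun j => l (b j) ≠ 0, fun j => if 0 ≤ l (b j) then r else -r, ?_, ?_⟩
  · intro j
    dsimp only
    split_ifs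
    · exact abs_of_pos hr
    · rw [abs_neg, abs_of_pos hr]
  · have hε : ∀ j (t : ℝ), |t| ≤ r → t * l (b j) ≤ (if 0 ≤ l (b j) then r else -r) * l (b j) := by
      intro j t ht
      obtain ⟨h1, h2⟩ := abs_le.1 ht
      split_ifs with h
      · exact mul_le_mul_of_nonneg_right h2 h
      · push Not at h
        nlinarith
    rw [hl]
    ext x
    constructor
    · rintro ⟨hx, hmax⟩
      refine ⟨hx, fun j hj => ?_⟩
      have hj' : l (b j) ≠ 0 := (Finset.mem_filter.1 hj).2
      obtain ⟨y, hy⟩ := exists_pt c b (fun i => if i = j then (if 0 ≤ l (b j) then r else -r) else ⟪x - c, b i⟫)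
      have hyP : y ∈ cube c r b := by
        intro i
        rw [hy i]
        by_cases hij : i = j
        · rw [if_pos hij]
          split_ifs
          · exact (abs_of_pos hr).le
          · rw [abs_neg, abs_of_pos hr]
        · rw [if_neg hij]
          exact hx i
      have h1 := hmax y hyP
      rw [lin_expand c b l y, lin_expand c b l x] at h1
      have h2 : ∑ i, ⟪y - c, b i⟫ * l (b i) - ∑ i, ⟪x - c, b i⟫ * l (b i) =
          ((if 0 ≤ l (b j) then r else -r) - ⟪x - c, b j⟫) * l (b j) := by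
        rw [← Finset.sum_sub_distrib, Finset.sum_eq_single j]
        · rw [hy j, if_pos rfl]
          ring
        · intro i _ hij
          rw [hy i, if_neg hij]
          ring
        · intro h
          exact absurd (Finset.mem_univ j) h
      have h3 := hε j _ (hx j)
      have h4 : ((if 0 ≤ l (b j) then r else -r) - ⟪x - c, b j⟫) * l (b j) = 0 := by
        apply le_antisymm
        · rw [← h2]
          linarith
        · rw [sub_mul]
          linarith
      rcases mul_eq_zero.1 h4 with h5 | h5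
      · linarith
      · exact absurd h5 hj'
    · rintro ⟨hx, hJ⟩
      refine ⟨hx, fun y hy => ?_⟩
      rw [lin_expand c b l y, lin_expand c b l x]
      refine add_le_add le_rfl (Finset.sum_le_sum fun j _ => ?_)
      by_cases hj : l (b j) = 0
      · rw [hj, mul_zero, mul_zero]
      · rw [hJ j (Finset.mem_filter.2 ⟨Finset.mem_univ _, hj⟩)]
        exact hε j _ (hy j)

theorem exists_two {c : E d} {r : ℝ} {b : OrthonormalBasis (Fin d) ℝ (E d)} (hr : 0 < r)
    (J : Finset (Fin d)) (ε : Fin d → ℝ) (hε : ∀ j, |ε j| = r) (i : Fin d) (hi : i ∉ J) :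
    ∃ x ∈ cf c r b J ε, ∃ y ∈ cf c r b J ε, x - y = r • b i ∧ ⟪x - c, b i⟫ ≠ ⟪y - c, b i⟫ := by
  classical
  obtain ⟨y, hy⟩ := exists_pt c b (fun j => if j ∈ J then ε j else 0)
  have hx : ∀ j, ⟪(y + r • b i) - c, b j⟫ = if j = i then r else (if j ∈ J then ε j else 0) := by
    intro j
    have h1 : (y + r • b i) - c = (y - c) + r • b i := by abel
    rw [h1, inner_add_left, hy j, real_inner_smul_left, inner_b]
    by_cases hij : j = i
    · subst hij
      rw [if_pos rfl, if_neg hi, if_pos rfl]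
      ring
    · have hij' : ¬ i = j := fun h => hij h.symm
      rw [if_neg hij', if_neg hij]
      ring
  refine ⟨y + r • b i, ⟨fun j => ?_, fun j hj => ?_⟩, y, ⟨fun j => ?_, fun j hj => ?_⟩, by abel, ?_⟩
  · rw [hx j]
    split_ifs
    · exact (abs_of_pos hr).le
    · exact (hε j).le
    · rw [abs_zero]; exact hr.le
  · have hji : ¬ j = i := by
      rintro rfl
      exact hi hj
    rw [hx j, if_neg hji, if_pos hj]
  · rw [hy j]
    split_ifs
    · exact (hε j).le
    · rw [abs_zero]; exact hr.le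
  · rw [hy j, if_pos hj]
  · rw [hx i, hy i, if_pos rfl, if_neg hi]
    exact hr.ne'

theorem dm_cf {c : E d} {r : ℝ} {b : OrthonormalBasis (Fin d) ℝ (E d)} (hr : 0 < r)
    (J : Finset (Fin d)) (ε : Fin d → ℝ) (hε : ∀ j, |ε j| = r) : dm (cf c r b J ε) = d - J.card := by
  classical
  have h1 : vectorSpan ℝ (cf c r b J ε) = Submodule.span ℝ (range fun j : {j // j ∈ Jᶜ} => b j.1) := by
    apply le_antisymm
    · rw [vectorSpan_def, Submodule.span_le]
      rintro _ ⟨x, hx, y, hy, rfl⟩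
      show x - y ∈ _
      have h2 : x - y = ∑ j, (⟪x - c, b j⟫ - ⟪y - c, b j⟫) • b j := by
        conv_lhs => rw [expand c b x, expand c b y]
        simp only [sub_smul, Finset.sum_sub_distrib]
        abel
      rw [h2]
      refine Submodule.sum_mem _ fun j _ => ?_
      by_cases hj : j ∈ J
      · rw [hx.2 j hj, hy.2 j hj, sub_self, zero_smul]
        exact Submodule.zero_mem _
      · exact Submodule.smul_mem _ _ (Submodule.subset_span ⟨⟨j, Finset.mem_compl.2 hj⟩, rfl⟩)
    · rw [Submodule.span_le]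
      rintro _ ⟨⟨j, hj⟩, rfl⟩
      obtain ⟨x, hx, y, hy, h, -⟩ := exists_two (c := c) (b := b) hr J ε hε j (Finset.mem_compl.1 hj)
      have h2 : x - y ∈ vectorSpan ℝ (cf c r b J ε) := vsub_mem_vectorSpan ℝ hx hy
      rw [h] at h2
      have h3 := Submodule.smul_mem _ r⁻¹ h2
      rwa [inv_smul_smul₀ hr.ne'] at h3
  have h2 : LinearIndependent ℝ (fun j : {j // j ∈ Jᶜ} => b j.1) :=
    b.orthonormal.linearIndependent.comp _ Subtype.val_injective
  show Module.finrank ℝ (vectorSpan ℝ (cf c r b J ε)) = d - J.card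
  rw [h1, finrank_span_eq_card h2, Fintype.card_coe, Finset.card_compl, Fintype.card_fin]

/-- a flag of the cube -/
theorem flag_form {c : E d} {r : ℝ} {b : OrthonormalBasis (Fin d) ℝ (E d)} (hr : 0 < r) (hd : 0 < d)
    (Φ : Flag (cube c r b)) : ∃ (J : Fin d → Finset (Fin d)) (ε : Fin d → ℝ), Antitone J ∧
      (∀ i, (J i).card = d - i) ∧ (∀ j, |ε j| = r) ∧ ∀ i, Φ.face i = cf c r b (J i) ε := by
  classical
  have h1 := fun i => face_form hr (Φ.isFace i)
  choose J η hη hJ using h1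
  have hcard : ∀ i, (J i).card = d - i := by
    intro i
    have h2 := Φ.dim i
    rw [hJ i] at h2
    have h3 : dm (cf c r b (J i) (η i)) = d - (J i).card := dm_cf hr (J i) (η i) (hη i)
    have h4 : dm (cf c r b (J i) (η i)) = i := h2
    have h5 : (J i).card ≤ d := by
      have := Finset.card_le_univ (J i)
      rwa [Fintype.card_fin] at this
    have h6 := i.2
    omega
  have hanti : Antitone J := by
    intro i i' hii j hj
    by_contra hcon
    obtain ⟨x, hx, y, hy, -, hne⟩ := exists_two (c := c) (b := b) hr (J i) (η i) (hη i) j hcon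
    rw [← hJ i] at hx hy
    have hx' := Φ.mono hii hx
    have hy' := Φ.mono hii hy
    rw [hJ i'] at hx' hy'
    exact hne ((hx'.2 j hj).trans (hy'.2 j hj).symm)
  obtain ⟨v, hv⟩ := (Φ.isFace ⟨0, hd⟩).1
  have huniv : J ⟨0, hd⟩ = Finset.univ := by
    rw [← Finset.card_eq_iff_eq_univ, hcard, Fintype.card_fin]
    rfl
  have hv0 : ∀ j, ⟪v - c, b j⟫ = η ⟨0, hd⟩ j := by
    intro j
    have h2 := hv
    rw [hJ] at h2
    exact h2.2 j (by rw [huniv]; exact Finset.mem_univ j)
  refine ⟨J, η ⟨0, hd⟩, hanti, hcard, hη _, fun i => ?_⟩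
  rw [hJ i]
  have hvi : v ∈ cf c r b (J i) (η i) := by
    rw [← hJ i]
    exact Φ.mono (Fin.mk_le_of_le_val (Nat.zero_le _)) hv
  ext x
  constructor
  · rintro ⟨h2, h3⟩
    exact ⟨h2, fun j hj => by rw [h3 j hj, ← hvi.2 j hj, hv0 j]⟩
  · rintro ⟨h2, h3⟩
    exact ⟨h2, fun j hj => by rw [h3 j hj, ← hv0 j, hvi.2 j hj]⟩

/-- signed permutations of an orthonormal basis -/
theorem exists_signed (b : OrthonormalBasis (Fin d) ℝ (E d)) (τ : Equiv.Perm (Fin d)) (σ : Fin d → ℝ)
    (hσ : ∀ j, σ j * σ j = 1) :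
    ∃ L : E d ≃ₗᵢ[ℝ] E d, ∀ x j, ⟪L x, b (τ j)⟫ = σ j * ⟪x, b j⟫ := by
  classical
  have hon : Orthonormal ℝ (fun j => σ j • b (τ j)) := by
    rw [orthonormal_iff_ite]
    intro i j
    rw [real_inner_smul_left, real_inner_smul_right, inner_b]
    by_cases hij : i = j
    · subst hij
      rw [if_pos rfl, if_pos rfl, mul_one, hσ]
    · have h2 : ¬ τ i = τ j := fun h => hij (τ.injective h)
      rw [if_neg h2, if_neg hij]
      ring
  have hsp : ⊤ ≤ Submodule.span ℝ (range fun j => σ j • b (τ j)) := by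
    rw [← b.toBasis.span_eq, Submodule.span_le]
    rintro _ ⟨i, rfl⟩
    rw [OrthonormalBasis.coe_toBasis, SetLike.mem_coe]
    have h2 : b i = σ (τ.symm i) • (σ (τ.symm i) • b (τ (τ.symm i))) := by
      rw [smul_smul, hσ, one_smul, Equiv.apply_symm_apply]
    rw [h2]
    exact Submodule.smul_mem _ _ (Submodule.subset_span ⟨τ.symm i, rfl⟩)
  obtain ⟨b', hb'⟩ : ∃ b' : OrthonormalBasis (Fin d) ℝ (E d), ∀ j, b' j = σ j • b (τ j) :=
    ⟨OrthonormalBasis.mk hon hsp, fun j => by rw [OrthonormalBasis.coe_mk]⟩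
  refine ⟨b.equiv b' (Equiv.refl _), fun x j => ?_⟩
  have h2 : b.equiv b' (Equiv.refl _) (b j) = σ j • b (τ j) := by
    rw [OrthonormalBasis.equiv_apply_basis, Equiv.refl_apply, hb']
  have h3 : b (τ j) = σ j • b.equiv b' (Equiv.refl _) (b j) := by
    rw [h2, smul_smul, hσ, one_smul]
  conv_lhs => rw [h3]
  rw [real_inner_smul_right, LinearIsometryEquiv.inner_map_map]

theorem image_iff {A B : Set (E d)} (g : E d ≃ᵢ E d) (h : ∀ x, x ∈ A ↔ g x ∈ B) : g '' A = B := by
  ext y
  constructor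
  · rintro ⟨x, hx, rfl⟩
    exact (h x).1 hx
  · intro hy
    exact ⟨g.symm y, (h _).2 (by rwa [g.apply_symm_apply]), g.apply_symm_apply y⟩

theorem ftc : S_PERMC → S_FTC := by
  intro hperm d P ⟨c, r, b, hr, hP⟩ Φ Ψ
  classical
  have hP' : P = cube c r b := hP
  clear hP
  subst hP'
  rcases Nat.eq_zero_or_pos d with hd | hd
  · subst hd
    exact ⟨IsometryEquiv.refl _, image_id _, fun i => i.elim0⟩
  obtain ⟨I, ε, hI1, hI2, hε, hI3⟩ := flag_form hr hd Φ
  obtain ⟨J, η, hJ1, hJ2, hη, hJ3⟩ := flag_form hr hd Ψ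
  obtain ⟨τ, hτ⟩ := hperm d d I J le_rfl hI1 hJ1 hI2 hJ2
  have hε0 : ∀ j, ε j ≠ 0 := fun j h => by
    have := hε j
    rw [h, abs_zero] at this
    exact hr.ne this
  have hsq : ∀ j k, η k * η k = ε j * ε j := fun j k => by
    rw [← abs_mul_abs_self (η k), ← abs_mul_abs_self (ε j), hε, hη]
  obtain ⟨L, hL⟩ := exists_signed b τ (fun j => η (τ j) / ε j) (fun j => by
    have h1 := hε0 j
    have h2 := hsq j (τ j)
    field_simp
    linarith)
  let g : E d ≃ᵢ E d := (IsometryEquiv.subRight c).trans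
    (L.toIsometryEquiv.trans (IsometryEquiv.addRight c))
  have hg : ∀ x j, ⟪g x - c, b (τ j)⟫ = η (τ j) / ε j * ⟪x - c, b j⟫ := by
    intro x j
    have h1 : g x - c = L (x - c) := by
      show L (x - c) + c - c = L (x - c)
      rw [add_sub_cancel_right]
    rw [h1, hL]
  have habs : ∀ j, |η (τ j) / ε j| = 1 := fun j => by
    rw [abs_div, hε, hη, div_self hr.ne']
  have hcube : ∀ x, x ∈ cube c r b ↔ g x ∈ cube c r b := by
    intro x
    constructor
    · intro h i
      obtain ⟨j, rfl⟩ := τ.surjective i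
      rw [hg, abs_mul, habs, one_mul]
      exact h j
    · intro h j
      have h1 := h (τ j)
      rwa [hg, abs_mul, habs, one_mul] at h1
  refine ⟨g, image_iff g hcube, fun i => ?_⟩
  rw [hI3, hJ3]
  refine image_iff g fun x => ?_
  unfold cf
  rw [mem_setOf_eq, mem_setOf_eq, ← hcube]
  refine and_congr_right fun _ => ?_
  rw [← hτ i]
  constructor
  · intro h k hk
    obtain ⟨j, hj, rfl⟩ := Finset.mem_image.1 hk
    rw [hg, h j hj, div_mul_cancel₀ _ (hε0 j)]
  · intro h j hj
    have h1 := h (τ j) (Finset.mem_image_of_mem τ hj)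
    rw [hg, div_mul_eq_mul_div, div_eq_iff (hε0 j)] at h1
    have h2 : η (τ j) ≠ 0 := fun h => by
      have := hη (τ j)
      rw [h, abs_zero] at this
      exact hr.ne this
    exact mul_left_cancel₀ h2 h1

end Pool.Agent.T9h46.NK
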