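import Pool.Agent.T9h46.NK.Fig
import Pool.Agent.T9h69.NK.VF
import Pool.Agent.T9h57.NK.Surj

/-!
# Project NK, piece VF
-/

set_option autoImplicit false

open Set
open scoped RealInnerProductSpace

namespace Pool.Agent.T9h46.NK

open Pool.Agent.T9h98.DC Pool.Agent.T9h44.NK

theorem vf : S_VF := by
  intro d P v n ι hP hv hS hn hι
  refine ⟨fig_polytope hP hv hS hn hι, fun F hF hvF hFv => ⟨fig_face hS hn hι hF hvF hFv,
    Pool.Agent.T9h69.NK.fig_dim hS hn hι hF hvF hFv⟩,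
    Pool.Agent.T9h57.NK.fig_surj hv hS hn hι, fun F G hF hG _ hvG h =>
    Pool.Agent.T9h69.NK.fig_le hS hn hι hF hG hvG h⟩

end Pool.Agent.T9h46.NK
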