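import Pool.Agent.T9h44.NK.SpecA

/-!
# Project NK, piece VF: the figure is a polytope, faces through `v` give faces of the figure
-/

set_option autoImplicit false

open Set
open scoped RealInnerProductSpace

namespace Pool.Agent.T9h46.NK

open Pool.Agent.T9h98.DC Pool.Agent.T9h44.NK

variable {d : ℕ}

/-- `ι` maps onto the orthogonal complement -/
theorem ort_surj {n : E (d + 1)} (hn : n ≠ 0) {ι : E d →ₗᵢ[ℝ] E (d + 1)} (hι : Ort n ι)
    (y : E (d + 1)) (hy : ⟪n, y⟫ = 0) : ∃ x, ι x = y := by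
  have h1 : LinearMap.range ι.toLinearMap ≤ (Submodule.span ℝ {n})ᗮ := by
    rintro _ ⟨x, rfl⟩
    rw [Submodule.mem_orthogonal_singleton_iff_inner_right]
    exact hι x
  have h2 : Module.finrank ℝ (LinearMap.range ι.toLinearMap) = d := by
    rw [LinearMap.finrank_range_of_inj ι.injective]
    simp
  have h3 : Module.finrank ℝ (Submodule.span ℝ {n})ᗮ = d := by
    have h4 := Submodule.finrank_add_finrank_orthogonal (Submodule.span ℝ {n})
    rw [finrank_span_singleton hn] at h4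
    have h5 : Module.finrank ℝ (E (d + 1)) = d + 1 := by simp
    omega
  have h4 := Submodule.eq_of_le_of_finrank_eq h1 (h2.trans h3.symm)
  have h5 : y ∈ (Submodule.span ℝ {n})ᗮ := by
    rw [Submodule.mem_orthogonal_singleton_iff_inner_right]
    exact hy
  rw [← h4] at h5
  exact h5

theorem exists_pr {v n : E (d + 1)} (hn : n ≠ 0) {ι : E d →ₗᵢ[ℝ] E (d + 1)} (hι : Ort n ι)
    (y : E (d + 1)) (hy : 0 < ⟪y - v, n⟫) : ∃ x, Pr v n ι y x := by
  have hn2 : 0 < ⟪n, n⟫ := real_inner_self_pos.2 hn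
  have ht : 0 < ⟪y - v, n⟫ / ⟪n, n⟫ := div_pos hy hn2
  obtain ⟨x, hx⟩ := ort_surj hn hι ((⟪y - v, n⟫ / ⟪n, n⟫)⁻¹ • (y - v) - n) (by
    rw [inner_sub_right, real_inner_smul_right, real_inner_comm (y - v) n]
    field_simp
    ring)
  refine ⟨x, _, ht, ?_⟩
  rw [hx, add_sub_cancel, smul_inv_smul₀ ht.ne']

theorem fig_convex {v n : E (d + 1)} {ι : E d →ₗᵢ[ℝ] E (d + 1)} {F : Set (E (d + 1))}
    (hF : Convex ℝ F) : Convex ℝ (fig v n ι F) := by
  rintro x1 ⟨t1, ht1, h1⟩ x2 ⟨t2, ht2, h2⟩ a b ha hb hab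
  have hD : 0 < a * t2 + b * t1 := by
    rcases ha.eq_or_lt with h | h
    · have hb1 : b = 1 := by linarith
      rw [← h, hb1]
      linarith
    · have := mul_pos h ht2
      have := mul_nonneg hb ht1.le
      linarith
  refine ⟨t1 * t2 / (a * t2 + b * t1), by positivity, ?_⟩
  have h3 := hF h1 h2 (a := a * t2 / (a * t2 + b * t1)) (b := b * t1 / (a * t2 + b * t1))
    (by positivity) (by positivity) (by field_simp)
  convert h3 using 1
  rw [map_add, map_smul, map_smul]
  have e1 : v = (a * t2 / (a * t2 + b * t1)) • v + (b * t1 / (a * t2 + b * t1)) • v := by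
    rw [← add_smul]
    have : a * t2 / (a * t2 + b * t1) + b * t1 / (a * t2 + b * t1) = 1 := by field_simp
    rw [this, one_smul]
  have e2 : n = a • n + b • n := by rw [← add_smul, hab, one_smul]
  conv_lhs => rw [e1]; rw [e2]
  simp only [smul_add, smul_smul]
  have e3 : t1 * t2 / (a * t2 + b * t1) * a = a * t2 / (a * t2 + b * t1) * t1 := by ring
  have e4 : t1 * t2 / (a * t2 + b * t1) * b = b * t1 / (a * t2 + b * t1) * t2 := by ring
  rw [e3, e4]
  abel

/-- the figure of a hull -/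
theorem fig_hull {v n : E (d + 1)} (hn : n ≠ 0) {ι : E d →ₗᵢ[ℝ] E (d + 1)} (hι : Ort n ι)
    (s : Finset (E (d + 1))) (hs : ∀ y ∈ s, y ≠ v → 0 < ⟪y - v, n⟫) (hv : v ∈ convexHull ℝ (s : Set (E (d + 1)))) :
    ∃ s' : Finset (E d), fig v n ι (convexHull ℝ (s : Set (E (d + 1)))) = convexHull ℝ (s' : Set (E d)) ∧
      (∀ x ∈ s', ∃ y ∈ s, y ≠ v ∧ Pr v n ι y x) ∧ ∀ y ∈ s, y ≠ v → ∃ x ∈ s', Pr v n ι y x := by
  classical
  have h1 : ∀ y ∈ s, y ≠ v → ∃ x, Pr v n ι y x := fun y hy hyv => exists_pr hn hι y (hs y hy hyv)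
  choose! X hX using h1
  refine ⟨(s.filter fun y => y ≠ v).image X, ?_, ?_, ?_⟩
  · apply Subset.antisymm
    · rintro x ⟨t, ht, hx⟩
      obtain ⟨w, hw0, hw1, hw⟩ := Finset.mem_convexHull'.1 hx
      have h2 : ∀ y ∈ s, ∃ τ : ℝ, 0 ≤ τ ∧ (y ≠ v → 0 < τ) ∧ y - v = τ • (n + ι (X y)) ∧ (y = v → τ = 0) := by
        intro y hy
        by_cases hyv : y = v
        · exact ⟨0, le_rfl, fun h => absurd hyv h, by simp [hyv], fun _ => rfl⟩
        · obtain ⟨τ, hτ, h⟩ := hX y hy hyv
          exact ⟨τ, hτ.le, fun _ => hτ, h, fun h => absurd h hyv⟩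
      choose! τ hτ0 hτ1 hτ2 hτ3 using h2
      have h3 : t • (n + ι x) = ∑ y ∈ s, (w y * τ y) • (n + ι (X y)) := by
        have h4 : t • (n + ι x) = ∑ y ∈ s, w y • (y - v) := by
          simp only [smul_sub, Finset.sum_sub_distrib]
          rw [hw, ← Finset.sum_smul, hw1, one_smul]
          abel
        rw [h4]
        refine Finset.sum_congr rfl fun y hy => ?_
        rw [mul_smul, ← hτ2 y hy]
      have hn2 : ⟪n, n⟫ ≠ 0 := (real_inner_self_pos.2 hn).ne'
      have h5 : t = ∑ y ∈ s, w y * τ y := by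
        have h6 := congrArg (fun z => ⟪n, z⟫) h3
        have hz : ∀ z, ⟪n, ι z⟫ = 0 := hι
        simp only [real_inner_smul_right, inner_add_right, add_zero, inner_sum, hz] at h6
        rw [← Finset.sum_mul] at h6
        exact mul_right_cancel₀ hn2 h6
      have h7 : t • x = ∑ y ∈ s, (w y * τ y) • X y := by
        apply ι.injective
        rw [map_smul, map_sum]
        simp only [smul_add, Finset.sum_add_distrib, ← Finset.sum_smul, ← h5] at h3
        have h8 := add_left_cancel h3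
        rw [h8]
        exact Finset.sum_congr rfl fun y _ => (map_smul ι _ _).symm
      have h8 : x = ∑ y ∈ s.filter (fun y => y ≠ v), (w y * τ y / t) • X y := by
        have h9 : x = t⁻¹ • (t • x) := (inv_smul_smul₀ ht.ne' x).symm
        rw [h9, h7, Finset.smul_sum]
        rw [Finset.sum_filter]
        refine Finset.sum_congr rfl fun y hy => ?_
        by_cases hyv : y = v
        · rw [if_neg (not_not.2 hyv), hτ3 y hy hyv]
          simp
        · rw [if_pos hyv, smul_smul]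
          congr 1
          ring
      rw [h8]
      refine (convex_convexHull ℝ _).sum_mem (fun y hy => ?_) ?_ fun y hy => ?_
      · have hy' := (Finset.mem_filter.1 hy).1
        exact div_nonneg (mul_nonneg (hw0 y hy') (hτ0 y hy')) ht.le
      · rw [← Finset.sum_div, Finset.sum_filter]
        have h10 : ∑ y ∈ s, (if y ≠ v then w y * τ y else 0) = ∑ y ∈ s, w y * τ y := by
          refine Finset.sum_congr rfl fun y hy => ?_
          by_cases hyv : y = v
          · rw [if_neg (not_not.2 hyv), hτ3 y hy hyv, mul_zero]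
          · rw [if_pos hyv]
        rw [h10, ← h5, div_self ht.ne']
      · exact subset_convexHull ℝ _ (Finset.mem_coe.2 (Finset.mem_image_of_mem X hy))
    · refine convexHull_min ?_ (fig_convex (convex_convexHull ℝ _))
      intro x hx
      obtain ⟨y, hy, rfl⟩ := Finset.mem_image.1 (Finset.mem_coe.1 hx)
      obtain ⟨hy1, hy2⟩ := Finset.mem_filter.1 hy
      obtain ⟨t, ht, h⟩ := hX y hy1 hy2
      refine ⟨t, ht, ?_⟩
      rw [← h, add_sub_cancel]
      exact subset_convexHull ℝ _ (Finset.mem_coe.2 hy1)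
  · intro x hx
    obtain ⟨y, hy, rfl⟩ := Finset.mem_image.1 hx
    obtain ⟨hy1, hy2⟩ := Finset.mem_filter.1 hy
    exact ⟨y, hy1, hy2, hX y hy1 hy2⟩
  · intro y hy hyv
    exact ⟨X y, Finset.mem_image_of_mem X (Finset.mem_filter.2 ⟨hy, hyv⟩), hX y hy hyv⟩

/-- the figure is a polytope -/
theorem fig_polytope {P : Set (E (d + 1))} {v n : E (d + 1)} (hP : IsPolytope P) (hv : Vx P v)
    (hS : Sup P v n) (hn : n ≠ 0) {ι : E d →ₗᵢ[ℝ] E (d + 1)} (hι : Ort n ι) :
    IsPolytope (fig v n ι P) := by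
  have hvP : v ∈ P := hv.2.subset (mem_singleton v)
  obtain ⟨⟨s, rfl⟩, p, hp⟩ := hP
  obtain ⟨s', hs', -, -⟩ := fig_hull hn hι s (fun y hy hyv => hS y (subset_convexHull ℝ _ hy) hyv) hvP
  refine ⟨⟨s', hs'⟩, ?_⟩
  have hpP := interior_subset hp
  have hpv : p ≠ v := by
    rintro rfl
    have hcont : Filter.Tendsto (fun ε : ℝ => p - ε • n) (nhds 0) (nhds p) := by
      have : Continuous fun ε : ℝ => p - ε • n := by fun_prop
      have h := this.tendsto 0
      simpa using h
    have h1 : ∀ᶠ ε in nhdsWithin (0 : ℝ) (Ioi 0), p - ε • n ∈ convexHull ℝ (s : Set (E (d + 1))) :=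
      (hcont.eventually (mem_interior_iff_mem_nhds.1 hp)).filter_mono nhdsWithin_le_nhds
    obtain ⟨ε, hε, hε0⟩ := (h1.and self_mem_nhdsWithin).exists
    have hε0' : 0 < ε := hε0
    have h2 := hS _ hε (by
      intro h
      have h3 : ε • n = 0 := by
        have := congrArg (fun z => p - z) h
        simpa using this
      rcases smul_eq_zero.1 h3 with h4 | h4
      · exact hε0'.ne' h4
      · exact hn h4)
    rw [sub_sub_cancel_left, inner_neg_left, real_inner_smul_left] at h2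
    have h3 := real_inner_self_pos.2 hn
    nlinarith
  obtain ⟨x, t, ht, hx⟩ := exists_pr hn hι p (hS p hpP hpv)
  have hxp : v + t • (n + ι x) = p := by rw [← hx, add_sub_cancel]
  have hcont : Continuous fun z : E d => v + t • (n + ι z) := by
    have := ι.continuous
    fun_prop
  refine ⟨x, mem_interior.2 ⟨(fun z : E d => v + t • (n + ι z)) ⁻¹' interior (convexHull ℝ (s : Set (E (d + 1)))),
    fun z hz => ⟨t, ht, interior_subset hz⟩, isOpen_interior.preimage hcont, ?_⟩⟩
  rw [mem_preimage, hxp]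
  exact hp

/-- a face through `v` as a level set -/
theorem face_level {P F : Set (E (d + 1))} {v : E (d + 1)} (hF : IsFace P F) (hvF : v ∈ F) :
    ∃ l : E (d + 1) →L[ℝ] ℝ, (∀ y ∈ P, l y ≤ l v) ∧ F = {y ∈ P | l y = l v} := by
  obtain ⟨l, hl⟩ := hF.2 hF.1
  have h1 : ∀ y ∈ P, l y ≤ l v := by
    rw [hl] at hvF
    exact hvF.2
  refine ⟨l, h1, ?_⟩
  have hvP : v ∈ P := by
    rw [hl] at hvF
    exact hvF.1
  rw [hl]
  ext y
  constructor
  · rintro ⟨h2, h3⟩
    exact ⟨h2, le_antisymm (h1 y h2) (h3 v hvP)⟩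
  · rintro ⟨h2, h3⟩
    exact ⟨h2, fun z hz => h3 ▸ h1 z hz⟩

/-- faces through `v` give faces of the figure -/
theorem fig_face {P : Set (E (d + 1))} {v n : E (d + 1)} (hS : Sup P v n) (hn : n ≠ 0)
    {ι : E d →ₗᵢ[ℝ] E (d + 1)} (hι : Ort n ι) {F : Set (E (d + 1))} (hF : IsFace P F) (hvF : v ∈ F)
    (hFv : F ≠ {v}) : IsFace (fig v n ι P) (fig v n ι F) := by
  obtain ⟨l, hl1, hl2⟩ := face_level hF hvF
  obtain ⟨y, hyF, hyv⟩ : ∃ y ∈ F, y ≠ v := by
    by_contra hcon
    push Not at hcon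
    exact hFv (Subset.antisymm (fun y hy => hcon y hy) (singleton_subset_iff.2 hvF))
  have hyP : y ∈ P := hF.2.subset hyF
  obtain ⟨x0, t0, ht0, hx0⟩ := exists_pr hn hι y (hS y hyP hyv)
  have hx0' : v + t0 • (n + ι x0) = y := by rw [← hx0, add_sub_cancel]
  have hkey : ∀ (x : E d) (t : ℝ), 0 < t → (l (v + t • (n + ι x)) ≤ l v ↔ l (ι x) ≤ - l n) := by
    intro x t ht
    rw [map_add, map_smul, map_add, smul_eq_mul]
    constructor
    · intro h
      have h1 : t * (l n + l (ι x)) ≤ 0 := by linarith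
      have h2 : l n + l (ι x) ≤ 0 := by
        by_contra hc
        push Not at hc
        have := mul_pos ht hc
        linarith
      linarith
    · intro h
      have h1 : l n + l (ι x) ≤ 0 := by linarith
      nlinarith
  have hkey2 : ∀ (x : E d) (t : ℝ), 0 < t → (l (v + t • (n + ι x)) = l v ↔ l (ι x) = - l n) := by
    intro x t ht
    rw [map_add, map_smul, map_add, smul_eq_mul]
    constructor
    · intro h
      have h1 : t * (l n + l (ι x)) = 0 := by linarith
      rcases mul_eq_zero.1 h1 with h2 | h2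
      · exact absurd h2 ht.ne'
      · linarith
    · intro h
      rw [h]
      ring
  have hmem : x0 ∈ fig v n ι F := ⟨t0, ht0, by rw [hx0']; exact hyF⟩
  refine ⟨⟨x0, hmem⟩, fun _ => ⟨l.comp ι.toContinuousLinearMap, ?_⟩⟩
  have hle : ∀ x ∈ fig v n ι P, l (ι x) ≤ - l n := by
    rintro x ⟨t, ht, hx⟩
    exact (hkey x t ht).1 (hl1 _ hx)
  have heq : ∀ x ∈ fig v n ι F, l (ι x) = - l n := by
    rintro x ⟨t, ht, hx⟩
    rw [hl2] at hx
    exact (hkey2 x t ht).1 hx.2
  ext x
  constructor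
  · intro hx
    obtain ⟨t, ht, hx'⟩ := hx
    refine ⟨⟨t, ht, hF.2.subset hx'⟩, fun z hz => ?_⟩
    show l (ι z) ≤ l (ι x)
    rw [heq x ⟨t, ht, hx'⟩]
    exact hle z hz
  · rintro ⟨⟨t, ht, hx⟩, h⟩
    refine ⟨t, ht, ?_⟩
    rw [hl2]
    refine ⟨hx, (hkey2 x t ht).2 ?_⟩
    have h1 : l (ι x0) ≤ l (ι x) := h x0 (by
      obtain ⟨t', ht', h'⟩ := hmem
      exact ⟨t', ht', hF.2.subset h'⟩)
    rw [heq x0 hmem] at h1
    exact le_antisymm (hle x ⟨t, ht, hx⟩) h1

end Pool.Agent.T9h46.NK
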