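import Pool.Agent.T9h44.NK.Ind

/-!
# Project NK: the induction with 7 and 6 levels (numbers of helper40)
-/

set_option autoImplicit false

open Set
open scoped RealInnerProductSpace

namespace Pool.Agent.T9h46.NK

open Pool.Agent.T9h98.DC Pool.Agent.T9h98.NK Pool.Agent.T9h44.NK

/-- **LL3** -/
def S_LL3 : Prop := ∀ (n : ℕ), 9 ≤ n → ∀ (P : Set (E (n + 1)))
    (H : Subgroup (E (n + 1) ≃ₗᵢ[ℝ] E (n + 1))),
  IsPolytope P → Pres H P → PT 7 H P → Reg P

/-- **LL4** -/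
def S_LL4 : Prop := ∀ (n : ℕ), 20 ≤ n → ∀ (P : Set (E (n + 1)))
    (H : Subgroup (E (n + 1) ≃ₗᵢ[ℝ] E (n + 1))),
  IsPolytope P → Pres H P → PT 6 H P → Reg P

/-- at most `k` orbits and dimension at least `N + 1` imply `Good` -/
def MK (k N : ℕ) : Prop := ∀ (n : ℕ), N ≤ n → ∀ (P : Set (E (n + 1)))
    (H : Subgroup (E (n + 1) ≃ₗᵢ[ℝ] E (n + 1))), IsPolytope P → Pres H P → Few k H P → Good P H

theorem good_of_pt (hF : S_FACES) (hM : S_MONO) (j : ℕ) (hj : 1 ≤ j) {n : ℕ} (hjn : j ≤ n + 1)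
    {P : Set (E (n + 1))} {H : Subgroup (E (n + 1) ≃ₗᵢ[ℝ] E (n + 1))} (hP : IsPolytope P)
    (hR : Reg P) (h : PT j H P) : Good P H := by
  refine ⟨hR, fun v w w' hw hw' => ?_⟩
  have h1 : PT 1 H P := hM n P H 1 j hP hj hjn h
  have hf := hF (n + 1) P hP.1
  obtain ⟨-, -, -, -, -, -, -, -, hA, -⟩ := hf
  exact vtrans h1 w w' (hA v w hw).2.1 (hA v w' hw').2.1

/-- the induction step -/
theorem aj (hVF : S_VF) (hI : S_INV) (hO : S_IOTA) (hT : S_TR) (hS : S_STEP)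
    (k N : ℕ) (hN : 9 ≤ N) (hk : MK (k + 1) N) :
    ∀ (j n : ℕ), N + j ≤ n → ∀ (P : Set (E (n + 1)))
      (H : Subgroup (E (n + 1) ≃ₗᵢ[ℝ] E (n + 1))), IsPolytope P → Pres H P → Few (k + 2) H P →
      Good P H ∨ PT j H P := by
  intro j
  induction j with
  | zero =>
    intro n _ P H _ _ _
    exact Or.inr (pt_zero P H)
  | succ j ih =>
    intro n hn P H hP hH hFew
    obtain ⟨m, rfl⟩ : ∃ m, n = m + 1 := ⟨n - 1, by omega⟩
    -- data at every vertex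
    have hdat : ∀ v, Vx P v → ∃ (a : E (m + 1 + 1)) (ι : E (m + 1) →ₗᵢ[ℝ] E (m + 1 + 1)),
        a ≠ 0 ∧ Sup P v a ∧ Ort a ι ∧ (∀ h ∈ H, h v = v → h a = a) := by
      intro v hv
      obtain ⟨a, ha, hs, hfix⟩ := hI (m + 1 + 1) P v H hP.1 hv (exists_ne hP v) hH
      obtain ⟨ι, hι, -⟩ := hO (m + 1) a ha
      exact ⟨a, ι, ha, hs, hι, hfix⟩
    by_cases htr : ∃ v w, Vx P v ∧ Vx P w ∧ ∀ h ∈ H, h v ≠ w
    · -- not transitive on the vertices
      obtain ⟨v₀, w₀, hv₀, hw₀, hne⟩ := htr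
      left
      apply hS (m + 1) P H (by omega) hP hH
      intro v hv
      obtain ⟨a, ι, ha, hs, hι, hfix⟩ := hdat v hv
      refine ⟨a, ι, hs, ha, hι, hfix, ?_⟩
      obtain ⟨t1, -, -, -, t5⟩ := hT (m + 1) P H v a ι hP hH hv hs ha hι hfix
      have hex : ∃ w, Vx P w ∧ ∀ h ∈ H, h v ≠ w := by
        by_contra hcon
        push Not at hcon
        obtain ⟨g1, hg1, e1⟩ := hcon v₀ hv₀
        obtain ⟨g2, hg2, e2⟩ := hcon w₀ hw₀
        apply hne (g2 * g1⁻¹) (H.mul_mem hg2 (H.inv_mem hg1))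
        change g2 (g1.symm v₀) = w₀
        rw [← e1, g1.symm_apply_apply, e2]
      have hfig := (hVF (m + 1) P v a ι hP hv hs ha hι).1
      exact hk m (by omega) _ _ hfig t1 (t5 (k + 1) hFew hex)
    · push Not at htr
      by_cases hex : ∃ (v a : E (m + 1 + 1)) (ι : E (m + 1) →ₗᵢ[ℝ] E (m + 1 + 1)), Vx P v ∧ a ≠ 0 ∧
          Sup P v a ∧ Ort a ι ∧ (∀ h ∈ H, h v = v → h a = a) ∧ PT j (figH H v ι) (fig v a ι P)
      · obtain ⟨v, a, ι, hv, ha, hs, hι, hfix, hpt⟩ := hex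
        right
        obtain ⟨-, -, t3, -, -⟩ := hT (m + 1) P H v a ι hP hH hv hs ha hι hfix
        exact t3 j (fun w hw => htr v w hv hw) hpt
      · left
        apply hS (m + 1) P H (by omega) hP hH
        intro v hv
        obtain ⟨a, ι, ha, hs, hι, hfix⟩ := hdat v hv
        refine ⟨a, ι, hs, ha, hι, hfix, ?_⟩
        obtain ⟨t1, -, -, t4, -⟩ := hT (m + 1) P H v a ι hP hH hv hs ha hι hfix
        have hfig := (hVF (m + 1) P v a ι hP hv hs ha hι).1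
        rcases ih m (by omega) _ _ hfig t1 (t4 (k + 2) hFew) with h | h
        · exact h
        · exact absurd ⟨v, a, ι, hv, ha, hs, hι, hfix, h⟩ hex

/-- one orbit on flags -/
theorem m1 (hF : S_FACES) (hM : S_MONO) (hL : S_LL3) : MK 1 9 := by
  intro n hn P H hP hH hFew
  have h7 : PT 7 H P := hM n P H 7 (n + 1) hP (by omega) le_rfl (pt_of_few_one hFew)
  exact good_of_pt hF hM 7 (by norm_num) (by omega) hP (hL n hn P H hP hH h7) h7

theorem m2 (hF : S_FACES) (hVF : S_VF) (hI : S_INV) (hO : S_IOTA) (hT : S_TR) (hM : S_MONO)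
    (hL : S_LL3) (hS : S_STEP) : MK 2 16 := by
  intro n hn P H hP hH hFew
  rcases aj hVF hI hO hT hS 0 9 le_rfl (m1 hF hM hL) 7 n (by omega) P H hP hH hFew with h | h
  · exact h
  · exact good_of_pt hF hM 7 (by norm_num) (by omega) hP (hL n (by omega) P H hP hH h) h

theorem mk (hF : S_FACES) (hVF : S_VF) (hI : S_INV) (hO : S_IOTA) (hT : S_TR) (hM : S_MONO)
    (hL3 : S_LL3) (hL4 : S_LL4) (hS : S_STEP) (k : ℕ) : MK (k + 2) (6 * k + 16) := by
  induction k with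
  | zero => exact m2 hF hVF hI hO hT hM hL3 hS
  | succ k ih =>
    intro n hn P H hP hH hFew
    rcases aj hVF hI hO hT hS (k + 1) (6 * k + 16) (by omega) ih 6 n (by omega) P H hP hH hFew with h | h
    · exact h
    · exact good_of_pt hF hM 6 (by norm_num) (by omega) hP (hL4 n (by omega) P H hP hH h) h

/-- the bound -/
theorem fin6 (hF : S_FACES) (hVF : S_VF) (hI : S_INV) (hO : S_IOTA) (hT : S_TR) (hM : S_MONO)
    (hL3 : S_LL3) (hL4 : S_LL4) (hS : S_STEP) (hTR : S_TRANS) (hONE : S_ONE) (h1 : S_FTS)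
    (h2 : S_FTO) (h3 : S_FTC) (k d : ℕ) (hk : 2 ≤ k) (P : Set (E d)) (hP : IsKOrbit k P) :
    d < 6 * k + 5 := by
  by_contra hcon
  push Not at hcon
  obtain ⟨n, rfl⟩ : ∃ n, d = n + 1 := ⟨d - 1, by omega⟩
  obtain ⟨j, rfl⟩ : ∃ j, k = j + 2 := ⟨k - 2, by omega⟩
  obtain ⟨P', H, hP', hH, hFew, hReg⟩ := hTR (n + 1) (j + 2) P hP (by omega)
  have hG := mk hF hVF hI hO hT hM hL3 hL4 hS j n (by omega) P' H hP' hH hFew
  have hR : FT P := by
    rcases hReg hG.1 with h | h | h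
    · exact h1 _ _ h
    · exact h2 _ _ h
    · exact h3 _ _ h
  have := hONE (n + 1) (j + 2) P hP hR
  omega

end Pool.Agent.T9h46.NK
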