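import Pool.Agent.T9h44.NK.Spec5
import Pool.Agent.T9h46.NK.Ind6

/-!
# Project NK: the induction with any number of levels, and the recursive form

`LLG L N0`: point transitivity up to level `L` makes `P` regular in dimension at least `N0 + 1`.
-/

set_option autoImplicit false

open Set
open scoped RealInnerProductSpace

namespace Pool.Agent.T9h46.NK

open Pool.Agent.T9h98.DC Pool.Agent.T9h98.NK Pool.Agent.T9h44.NK

/-- `PT L` suffices in dimension at least `N0 + 1` -/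
def LLG (L N0 : ℕ) : Prop := ∀ (n : ℕ), N0 ≤ n → ∀ (P : Set (E (n + 1)))
    (H : Subgroup (E (n + 1) ≃ₗᵢ[ℝ] E (n + 1))),
  IsPolytope P → Pres H P → PT L H P → Reg P

/-- one step of the induction -/
theorem mk_step (hF : S_FACES) (hVF : S_VF) (hI : S_INV) (hO : S_IOTA) (hT : S_TR) (hM : S_MONO)
    (hS : S_STEP) (L N0 : ℕ) (hL1 : 1 ≤ L) (hL : LLG L N0) (k N : ℕ) (hN : 9 ≤ N)
    (hN0 : N0 ≤ N + L) (hk : MK (k + 1) N) : MK (k + 2) (N + L) := by
  intro n hn P H hP hH hFew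
  rcases aj hVF hI hO hT hS k N hN hk L n hn P H hP hH hFew with h | h
  · exact h
  · exact good_of_pt hF hM L hL1 (by omega) hP (hL n (by omega) P H hP hH h) h

/-- `PT 7` for at most two orbits, `PT 5` afterwards -/
theorem mk5 (hF : S_FACES) (hVF : S_VF) (hI : S_INV) (hO : S_IOTA) (hT : S_TR) (hM : S_MONO)
    (hL7 : S_LL7) (hL5 : S_LL5) (hS : S_STEP) (k : ℕ) : MK (k + 2) (5 * k + 16) := by
  induction k with
  | zero =>
    exact mk_step hF hVF hI hO hT hM hS 7 9 (by norm_num) hL7 0 9 le_rfl (by norm_num)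
      (m1 hF hM hL7)
  | succ k ih =>
    have := mk_step hF hVF hI hO hT hM hS 5 18 (by norm_num) hL5 (k + 1) (5 * k + 16) (by omega)
      (by omega) ih
    have e : 5 * (k + 1) + 16 = 5 * k + 16 + 5 := by ring
    rw [e]
    exact this

/-- from `MK k N` to the bound -/
theorem no_of_mk (hTR : S_TRANS) (hONE : S_ONE) (h1 : S_FTS) (h2 : S_FTO) (h3 : S_FTC) (k N : ℕ)
    (h : MK k N) (n : ℕ) (hn : N ≤ n) (j : ℕ) (hj : 2 ≤ j) (hjk : j ≤ k) (P : Set (E (n + 1))) :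
    ¬ IsKOrbit j P := by
  intro hP
  obtain ⟨P', H, hP', hH, hFew, hReg⟩ := hTR (n + 1) j P hP (by omega)
  have hFew' : Few k H P' := by
    intro Φ
    obtain ⟨a, b, hab, g, hg, hl⟩ := hFew fun l => Φ (Fin.castLE (by omega) l)
    exact ⟨_, _, fun hc => hab (Fin.castLE_injective _ hc), g, hg, hl⟩
  have hG := h n hn P' H hP' hH hFew'
  have hR : FT P := by
    rcases hReg hG.1 with h | h | h
    · exact h1 _ _ h
    · exact h2 _ _ h
    · exact h3 _ _ h
  have := hONE (n + 1) j P hP hR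
  omega

/-- **the bound `d < 5 k + 7`** -/
theorem fin5 (hF : S_FACES) (hVF : S_VF) (hI : S_INV) (hO : S_IOTA) (hT : S_TR) (hM : S_MONO)
    (hL7 : S_LL7) (hL5 : S_LL5) (hS : S_STEP) (hTR : S_TRANS) (hONE : S_ONE) (h1 : S_FTS)
    (h2 : S_FTO) (h3 : S_FTC) (k d : ℕ) (hk : 2 ≤ k) (P : Set (E d)) (hP : IsKOrbit k P) :
    d < 5 * k + 7 := by
  by_contra hcon
  push Not at hcon
  obtain ⟨n, rfl⟩ : ∃ n, d = n + 1 := ⟨d - 1, by omega⟩
  obtain ⟨j, rfl⟩ : ∃ j, k = j + 2 := ⟨k - 2, by omega⟩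
  exact no_of_mk hTR hONE h1 h2 h3 (j + 2) (5 * j + 16)
    (mk5 hF hVF hI hO hT hM hL7 hL5 hS j) n (by omega) (j + 2) hk le_rfl P hP

/-- the group is not transitive on the vertices: one dimension more -/
theorem step_c7 (hF : S_FACES) (hVF : S_VF) (hI : S_INV) (hO : S_IOTA) (hT : S_TR) (hS : S_STEP)
    (k m : ℕ) (hm : 8 ≤ m)
    (hk : ∀ (Q : Set (E (m + 1))) (K : Subgroup (E (m + 1) ≃ₗᵢ[ℝ] E (m + 1))), IsPolytope Q →
      Pres K Q → Few k K Q → Good Q K)
    (P : Set (E (m + 1 + 1))) (H : Subgroup (E (m + 1 + 1) ≃ₗᵢ[ℝ] E (m + 1 + 1)))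
    (hP : IsPolytope P) (hH : Pres H P) (hFew : Few (k + 1) H P) (hReg : Reg P) : Good P H := by
  by_cases htr : ∃ v w, Vx P v ∧ Vx P w ∧ ∀ h ∈ H, h v ≠ w
  · obtain ⟨v₀, w₀, hv₀, hw₀, hne⟩ := htr
    apply hS (m + 1) P H (by omega) hP hH
    intro v hv
    obtain ⟨a, ha, hs, hfix⟩ := hI (m + 1 + 1) P v H hP.1 hv (exists_ne hP v) hH
    obtain ⟨ι, hι, -⟩ := hO (m + 1) a ha
    refine ⟨a, ι, hs, ha, hι, hfix, ?_⟩
    obtain ⟨t1, -, -, -, t5⟩ := hT (m + 1) P H v a ι hP hH hv hs ha hι hfix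
    have hex : ∃ w, Vx P w ∧ ∀ h ∈ H, h v ≠ w := by
      by_contra hcon
      push Not at hcon
      obtain ⟨g1, hg1, e1⟩ := hcon v₀ hv₀
      obtain ⟨g2, hg2, e2⟩ := hcon w₀ hw₀
      apply hne (g2 * g1⁻¹) (H.mul_mem hg2 (H.inv_mem hg1))
      change g2 (g1.symm v₀) = w₀
      rw [← e1, g1.symm_apply_apply, e2]
    have hfig := (hVF (m + 1) P v a ι hP hv hs ha hι).1
    exact hk _ _ hfig t1 (t5 k hFew hex)
  · push Not at htr
    refine ⟨hReg, fun v w w' hw hw' => ?_⟩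
    have hf := hF (m + 1 + 1) P hP.1
    obtain ⟨-, -, -, -, -, -, -, -, hA, -⟩ := hf
    exact htr w w' (hA v w hw).2.1 (hA v w' hw').2.1

/-- a polytope with at most `k` classes of flags in a dimension without `j`-orbit polytopes,
`2 ≤ j ≤ k`, is regular (proof of helper64) -/
theorem reg_free7 (hF : S_FACES) (hE : S_EXT) (hTR : S_TRANS) (hM : S_MONO) (hL : S_LL7) (k n : ℕ)
    (hn : 9 ≤ n) (P : Set (E (n + 1))) (H : Subgroup (E (n + 1) ≃ₗᵢ[ℝ] E (n + 1)))
    (hP : IsPolytope P) (hH : Pres H P) (hFew : Few k H P)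
    (hno : ∀ j, 2 ≤ j → j ≤ k → ¬ IsKOrbit j P) : Reg P := by
  obtain ⟨-, -, -, -, h5, -⟩ := hF (n + 1) P hP.1
  obtain ⟨x, hx⟩ := hP.2
  obtain ⟨-, v, hv⟩ := h5 ⟨x, interior_subset hx⟩
  obtain ⟨Φ₀, -⟩ := hE n P v hP hv
  have hne : Nonempty (Quotient (flagSetoid P)) :=
    ⟨Quotient.mk (flagSetoid P) ⟨Φ₀.face, Φ₀.isFace, Φ₀.dim, Φ₀.mono⟩⟩
  have hinj : ∀ f : Fin (k + 1) → Quotient (flagSetoid P), ¬ Function.Injective f := by
    intro f hf
    obtain ⟨i, j, hij, h, hh, hl⟩ := hFew (fun i =>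
      ⟨(Quotient.out (f i)).face, (Quotient.out (f i)).isFace, (Quotient.out (f i)).dim,
        (Quotient.out (f i)).mono⟩)
    apply hij
    apply hf
    rw [← Quotient.out_eq (f i), ← Quotient.out_eq (f j)]
    apply Quotient.sound
    exact ⟨h.toIsometryEquiv, hH h hh, hl⟩
  have hfin : Finite (Quotient (flagSetoid P)) := by
    by_contra hcon
    rw [not_finite_iff_infinite] at hcon
    exact hinj (fun i => Infinite.natEmbedding (Quotient (flagSetoid P)) (i : ℕ))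
      (fun a b hab => Fin.ext ((Infinite.natEmbedding (Quotient (flagSetoid P))).injective hab))
  have hcard : Nat.card (Quotient (flagSetoid P)) ≤ k := by
    by_contra hcon
    push Not at hcon
    let e := Finite.equivFin (Quotient (flagSetoid P))
    exact hinj (fun i => e.symm (Fin.castLE hcon i))
      (fun a b hab => Fin.castLE_injective hcon (e.symm.injective hab))
  have hpos : 0 < Nat.card (Quotient (flagSetoid P)) := Nat.card_pos
  have h1 : Nat.card (Quotient (flagSetoid P)) = 1 := by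
    by_contra hne1
    exact hno _ (by omega) hcard ⟨hP, rfl⟩
  obtain ⟨P', H', hP', hH', hFew', hReg⟩ := hTR (n + 1) 1 P ⟨hP, h1⟩ one_pos
  apply hReg
  exact hL n hn P' H' hP' hH' (hM n P' H' 7 (n + 1) hP' (by omega) le_rfl (pt_of_few_one hFew'))

/-- **the recursive bound, slope `L`** -/
theorem recG (hF : S_FACES) (hVF : S_VF) (hI : S_INV) (hO : S_IOTA) (hT : S_TR) (hE : S_EXT)
    (hM : S_MONO) (hL7 : S_LL7) (hS : S_STEP) (hTR : S_TRANS) (hONE : S_ONE) (hS1 : S_FTS)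
    (hS2 : S_FTO) (hS3 : S_FTC) (L N0 : ℕ) (hL1 : 1 ≤ L) (hL : LLG L N0) (k D : ℕ) (hk : 1 ≤ k)
    (hD : k + 9 ≤ D) (hD0 : N0 + 1 ≤ D + L)
    (hno : ∀ j, 2 ≤ j → j ≤ k → ∀ d, D + j ≤ d + k → ∀ P : Set (E d), ¬ IsKOrbit j P) :
    ∀ m d, D + L * m ≤ d → ∀ j, 2 ≤ j → j ≤ k + m → ∀ P : Set (E d), ¬ IsKOrbit j P := by
  -- the first `k` steps cost one dimension each
  have base : ∀ i, 1 ≤ i → i ≤ k → ∀ n, D + i ≤ n + 1 + k → ∀ (P : Set (E (n + 1)))
      (H : Subgroup (E (n + 1) ≃ₗᵢ[ℝ] E (n + 1))), IsPolytope P → Pres H P → Few i H P →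
      Good P H := by
    intro i hi
    induction i, hi using Nat.le_induction with
    | base =>
      intro _ n hn P H hP hH hFew
      exact m1 hF hM hL7 n (by omega) P H hP hH hFew
    | succ i hi ih =>
      intro hik n hn P H hP hH hFew
      obtain ⟨m, rfl⟩ : ∃ m, n = m + 1 := ⟨n - 1, by omega⟩
      have hReg : Reg P := reg_free7 hF hE hTR hM hL7 (i + 1) (m + 1) (by omega) P H hP hH hFew
        (fun j h2 hj => hno j h2 (by omega) (m + 1 + 1) (by omega) P)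
      exact step_c7 hF hVF hI hO hT hS i m (by omega)
        (fun Q K hQ hK hFQ => ih (by omega) m (by omega) Q K hQ hK hFQ) P H hP hH hFew hReg
  -- the other steps cost `L` dimensions each
  have main : ∀ m, MK (k + m) (D + L * m - 1) := by
    intro m
    induction m with
    | zero =>
      intro n hn P H hP hH hFew
      exact base k hk le_rfl n (by omega) P H hP hH hFew
    | succ m ih =>
      obtain ⟨k', rfl⟩ : ∃ k', k = k' + 1 := ⟨k - 1, by omega⟩
      have e1 : k' + 1 + m = (k' + m) + 1 := by ring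
      have e2 : k' + 1 + (m + 1) = (k' + m) + 2 := by ring
      have e3 : D + L * (m + 1) - 1 = (D + L * m - 1) + L := by
        rw [Nat.mul_succ]; omega
      have h0 : N0 ≤ D + L * m - 1 + L := by
        have : 0 ≤ L * m := Nat.zero_le _
        omega
      rw [e2, e3]
      rw [e1] at ih
      exact mk_step hF hVF hI hO hT hM hS L N0 hL1 hL (k' + m) (D + L * m - 1) (by omega) h0 ih
  intro m d hd j hj hjk P
  have hd1 : 1 ≤ d := by
    have : 0 ≤ L * m := Nat.zero_le _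
    omega
  obtain ⟨n, rfl⟩ : ∃ n, d = n + 1 := ⟨d - 1, by omega⟩
  exact no_of_mk hTR hONE hS1 hS2 hS3 (k + m) (D + L * m - 1) (main m) n (by omega) j hj hjk P

end Pool.Agent.T9h46.NK
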